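import Pool.Agent.Helper38.LinL.Decomp

/-!
# Linear languages with restricted loops are in deterministic logarithmic space

Let `G` be a linear grammar over a finite alphabet such that for every nonterminal `A` one of the
following holds for the loops `A ⇒* u A v`:

* `RightDet`: `v` is determined by `u` and the length of `v` (equivalently, any two right contexts
  of the same left context commute);
* `LeftDet`: `u` is determined by `v` and the length of `u`;
* `Narrow`: for all words `x, y` at most `k` of the triples `(B, u, v)` with `A ⇒* u B v` on the
  way of a loop, `u` a beginning of `x` and `v` an end of `y`, lie on each line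
  `a |u| + b |v| = s`;
* `CoNarrow`: the same for the triples with `B ⇒* u A v`.

Then the language of `G` is decided by a deterministic Turing machine in logarithmic space. The
machine model (`TM`, `InL`) is defined in `Pool.Agent.Helper38.LinL.Machine`, the grammars and the
four conditions in `Pool.Agent.Helper38.LinL.Grammar`.
-/

namespace Pool.Agent.Results.MP_cb9e82_lc.LoopConditions

open Pool.Agent.Helper38.LinL

theorem result (α : Type) [Finite α] (G : LinearGrammar α)
    (hG : ∀ A, G.RightDet A ∨ G.LeftDet A ∨ G.Narrow A ∨ G.CoNarrow A) : InL G.language :=
  inL_of_loops G hG

end Pool.Agent.Results.MP_cb9e82_lc.LoopConditions
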