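import Pool.Agent.DEG.Main

/-!
# Every degree of `NL` contains a linear language (MP_cb9e82_lc)

For every language `A` in `NL` there is a linear grammar `G` such that `A` and the language of `G`
are reducible to each other by logarithmic space many-one reductions; if `A` is not empty, the
complement of the language of `G` is the image of the complement of `A` under an injective
logarithmic space function `f` such that the length of `f x` is a strictly increasing function of
the length of `x`.
-/

namespace Pool.Agent.Results.MP_cb9e82_lc.DegreeTheorem

open Pool.Agent.Helper38.LinL Pool.Agent.DEG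

theorem result (α : Type) [Finite α] (A : Set (List α)) (hA : InNL A) :
    ∃ (β : Type) (_ : Finite β) (G : LinearGrammar β), LogRed A G.language ∧
      LogRed G.language A ∧ (A.Nonempty → ∃ (f : List α → List β) (ℓ : ℕ → ℕ),
        LogComp f ∧ Function.Injective f ∧ StrictMono ℓ ∧
        (∀ x, (f x).length = ℓ x.length) ∧ ∀ w, w ∉ G.language ↔ ∃ x, x ∉ A ∧ w = f x) :=
  degree_all α A hA

end Pool.Agent.Results.MP_cb9e82_lc.DegreeTheorem
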