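import Pool.Agent.Helper75.Lin5.Main

/-!
# Linear grammars with one nonterminal and free left side: a trichotomy by the number of rules

Let `U` be a finite code (a finite set of words over an alphabet `α` such that every word is in
at most one way a product of words of `U`), and let `m u ≥ 1` for `u ∈ U`. Consider the linear
grammars with one nonterminal `S` over alphabets containing `α` such that the words `u` of the
rules `S → u S v` are the words of `U`, and each `u ∈ U` occurs in exactly `m u` of these rules
(the words `v` and the rules `S → t` are arbitrary).

* If all `m u` are `1` or `U` has at most one element, then all these grammars generate languages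
  in deterministic logarithmic space.
* If `U` has at least two elements and the number of recursive rules, the sum of the `m u`, is
  `|U| + 1`, then the languages of all these grammars are in deterministic logarithmic space if
  and only if layered grid graph reachability is, if and only if the language of one of these
  grammars is.
* If `U` has at least two elements and there are at least `|U| + 2` recursive rules, then there
  is such a grammar whose language is in deterministic logarithmic space if and only if all
  linear languages are.
-/

namespace Pool.Agent.Results.MP_cb9e82_lc.FreeLeftTrichotomy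

open Pool.Agent.Helper38.LinL Pool.Agent.Helper38.LinTwo Pool.Agent.Helper75.Lin5

theorem result {α : Type} [Finite α] (U : Finset (List α)) (hU : IsCode U) (m : List α → ℕ)
    (hm : ∀ u ∈ U, 1 ≤ m u) :
    (U.card ≤ 1 ∨ ∑ u ∈ U, m u = U.card →
      ∀ (β : Type) (_ : Finite β) (H : LinearGrammar (α ⊕ β)), Profile U m H →
        InL H.language) ∧
    (2 ≤ U.card → ∑ u ∈ U, m u = U.card + 1 →
      ∃ G : LinearGrammar (α ⊕ Bool), Profile U m G ∧
        (InL G.language ↔ InL LGGR) ∧
        ((∀ (β : Type) (_ : Finite β) (H : LinearGrammar (α ⊕ β)), Profile U m H →
          InL H.language) ↔ InL LGGR)) ∧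
    (2 ≤ U.card → U.card + 2 ≤ ∑ u ∈ U, m u →
      ∃ G : LinearGrammar (α ⊕ Bool), Profile U m G ∧
        (InL G.language ↔
          ∀ (β : Type) (_ : Finite β) (H : LinearGrammar β), InL H.language)) := by
  refine ⟨fun h β _ H hH => ?_, fun h2 h => ?_, fun h2 h => ?_⟩
  · obtain ⟨h1, h2, h3⟩ := hH.data hU
    exact inL_easy h1 (by omega)
  · have upper : InL LGGR → ∀ (β : Type) (_ : Finite β) (H : LinearGrammar (α ⊕ β)),
        Profile U m H → InL H.language := by
      intro hL β _ H hH
      obtain ⟨h3, h4, h5⟩ := hH.data hU
      exact inL_of_lggr h3 (by omega) hL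
    obtain ⟨G, hG, h3⟩ := exists_hard3 hU hm h2 h
    have hard : InL G.language → InL LGGR := fun h4 => Helper95.Lin3.inL_lggr3 (h3 h4)
    exact ⟨G, hG, ⟨hard, fun hL => upper hL Bool inferInstance G hG⟩,
      fun h4 => hard (h4 Bool inferInstance G hG), upper⟩
  · obtain ⟨G, hG, h3⟩ := exists_hard4 hU hm h2 h
    exact ⟨G, hG, fun h4 _ _ _ => Helper75.Lin4.inL_of_G4 (h3 h4), fun h4 => h4 _ inferInstance G⟩

end Pool.Agent.Results.MP_cb9e82_lc.FreeLeftTrichotomy
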