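import Pool.Agent.SNT.Class

/-!
# Linear grammars: a classification by the number of nonterminals and the shapes of the rules

Call `(|u|, |v|)` the shape of a rule `A → u B v` of a linear grammar. For a positive number `k`
and a set `F` of shapes consider the grammars with at most `k` nonterminals and all shapes in `F`.
Exactly one of the following holds.

* `F` is on one line through the origin, or `k = 1` and `F` is on the coordinate axes. Then all
  these grammars generate languages in deterministic logarithmic space.
* Not so, but `k = 1` and `F` is contained in a set `{0, s, t, s + t}`. Then the question whether
  the languages of all these grammars are in deterministic logarithmic space is equivalent to the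
  same question for layered grid graph reachability, and to that for one of these grammars.
* Otherwise one of these grammars has a language which is in deterministic logarithmic space if
  and only if all linear languages are.

In particular, for every two independent shapes `g`, `r` (for example `(1, 0)` and `(0, 1)`, the
usual normal form) there is a hardest grammar with two nonterminals and these two shapes.
-/

namespace Pool.Agent.Results.MP_cb9e82_lc.ShapeClassification

open Pool.Agent.Helper38.LinL Pool.Agent.Helper38.LinTwo Pool.Agent.SNT

theorem result (k : ℕ) (hk : 0 < k) (F : Set (ℕ × ℕ)) :
    (Easy k F →
      ∀ (β : Type) (_ : Finite β) (H : LinearGrammar β), Fam k F H → InL H.language) ∧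
    (¬ Easy k F → Planar k F →
      ∃ (α : Type) (_ : Finite α) (G : LinearGrammar α), Fam k F G ∧
        (InL G.language ↔ InL LGGR) ∧
        ((∀ (β : Type) (_ : Finite β) (H : LinearGrammar β), Fam k F H → InL H.language) ↔
          InL LGGR)) ∧
    (¬ Easy k F → ¬ Planar k F →
      ∃ (α : Type) (_ : Finite α) (G : LinearGrammar α), Fam k F G ∧
        (InL G.language ↔
          ∀ (β : Type) (_ : Finite β) (H : LinearGrammar β), InL H.language)) :=
  ⟨fun h _ hβ _ hH => easy_case h hβ hH, fun h1 h2 => planar_case' h1 h2,
    fun h1 h2 => hard_case hk h1 h2⟩

end Pool.Agent.Results.MP_cb9e82_lc.ShapeClassification
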